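import Pool.Agent.Helper82.Min.Plane
import Pool.Agent.Helper82.Min.Conv
import Pool.Agent.Helper82.PlaneMinimal

/-!
# Minimal surfaces of finite area in Fuchsian manifolds

All definitions used in the statement are in `Pool/Agent/Helper82/Min/Defs.lean` and
`Pool/Agent/Helper82/Min/Plane.lean`.
-/

namespace Pool.Agent.Helper45.Slots.FuchsianClassification

open Pool.Agent.Helper82 Pool.Agent.Helper82.Min

/-- Let `Γ` be a discrete torsion-free group of isometries of hyperbolic 3-space preserving the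
totally geodesic plane `P = {y = 0}`. Then the properly embedded minimal surfaces of finite area in
`H³/Γ` are exactly: the totally geodesic surface `P/Γ` if it has finite area, and none
otherwise. -/
theorem result (Γ : Grp) (hΓ : ∀ γ ∈ Γ, IsIsom γ) (hd : Min.IsDiscrete Γ)
    (ht : Min.IsTorsionFree Γ) (hP : ∀ γ ∈ Γ, ∀ q : Min.H3, q.1 ∈ Min.plane → (γ q).1 ∈ Min.plane)
    (S : Set (Min.Mfd Γ)) :
    (Min.IsMinimalSurface Γ S ∧ Min.area Γ S < ⊤) ↔
      (Min.lift Γ S = Min.plane ∧ Min.area Γ S < ⊤) := by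
  have hP' : ∀ γ ∈ Γ, ∀ q : Helper82.H3, (q : Helper82.E3) 1 = 0 → (γ q : Helper82.E3) 1 = 0 :=
    fun γ hγ q hq => (hP γ hγ q ⟨q.2, hq⟩).2
  have hplane : ∀ {L : Set Helper82.H3}, Subtype.val '' L = Min.plane ↔
      L = {q : Helper82.H3 | (q : Helper82.E3) 1 = 0} := by
    intro L
    constructor
    · intro h
      ext q
      have h1 : q.1 ∈ Subtype.val '' L ↔ q ∈ L := Subtype.val_injective.mem_set_image
      rw [← h1, h]
      exact ⟨fun h2 => h2.2, fun h2 => ⟨q.2, h2⟩⟩
    · rintro rfl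
      ext p
      constructor
      · rintro ⟨q, hq, rfl⟩
        exact ⟨q.2, hq⟩
      · rintro ⟨h1, h2⟩
        exact ⟨⟨p, h1⟩, h2, rfl⟩
  constructor
  · rintro ⟨h1, h2⟩
    refine ⟨?_, h2⟩
    rw [area_eq _ h1.2.1] at h2
    rw [lift_eq, hplane]
    exact lift_eq_plane hΓ hd ht hP' ((isMinimalSurface_iff _ S).1 h1) h2
  · rintro ⟨h1, h2⟩
    rw [lift_eq, hplane] at h1
    exact ⟨(isMinimalSurface_iff _ S).2 (isMinimalSurface_of_lift_eq h1), h2⟩

end Pool.Agent.Helper45.Slots.FuchsianClassification
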